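import Mathlib
import Pool.Agent.Q299.ClosedMonoids

set_option autoImplicit false

namespace Pool.Agent.Results.MP_fafee5_lc.DiscreteExample

open Pool.Agent.Q299.ClosedMonoids Topology

/-- the operation `min` on `{∞} ∪ ℕ`, with `∞` coded by `0` and `n` by `n + 1` -/
def op (m n : ℕ) : ℕ := if m = 0 then n else if n = 0 then m else min m n

/-- left multiplications -/
def lm (m : ℕ) : ℕ → ℕ := fun x => op m x

/-- the maps `min (·, n)` -/
def tm (m : ℕ) : ℕ → ℕ := fun x => if m = 0 then x else min x (m - 1)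

theorem lm_zero (m : ℕ) : lm m 0 = m := by
  unfold lm op
  split_ifs <;> omega

theorem lm_op (m n : ℕ) : lm (op m n) = lm m ∘ lm n := by
  funext x
  simp only [lm, op, Function.comp]
  split_ifs <;> omega

theorem tm_op (m n : ℕ) : tm (op m n) = tm m ∘ tm n := by
  funext x
  simp only [tm, op, Function.comp]
  split_ifs <;> omega

theorem tm_inj {m n : ℕ} (h : tm m = tm n) : m = n := by
  have h1 := congrFun h (m + n + 1)
  have h2 := congrFun h (m + n)
  simp only [tm] at h1 h2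
  split_ifs at h1 h2 <;> omega

/-- the discrete monoid -/
def SS : Submonoid (Function.End ℕ) where
  carrier := {f | ∃ m, f = lm m}
  one_mem' := ⟨0, by
    funext x
    change x = lm 0 x
    simp [lm, op]⟩
  mul_mem' := by
    rintro _ _ ⟨m, rfl⟩ ⟨n, rfl⟩
    exact ⟨op m n, (lm_op m n).symm⟩

/-- the non-discrete monoid -/
def TT : Submonoid (Function.End ℕ) where
  carrier := {f | ∃ m, f = tm m}
  one_mem' := ⟨0, by
    funext x
    change x = tm 0 x
    simp [tm]⟩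
  mul_mem' := by
    rintro _ _ ⟨m, rfl⟩ ⟨n, rfl⟩
    exact ⟨op m n, (tm_op m n).symm⟩

theorem mem_SS {f : Function.End ℕ} : f ∈ SS ↔ ∃ m, f = lm m := Iff.rfl

theorem mem_TT {f : Function.End ℕ} : f ∈ TT ↔ ∃ m, f = tm m := Iff.rfl

theorem SS_eq (f : SS) : f.1 = lm ((f.1 : ℕ → ℕ) 0) := by
  obtain ⟨m, hm⟩ := mem_SS.1 f.2
  rw [hm, lm_zero]

/-- the homomorphism -/
def phi : SS →ₙ* TT where
  toFun f := ⟨tm ((f.1 : ℕ → ℕ) 0), ⟨_, rfl⟩⟩
  map_mul' := by
    intro f g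
    apply Subtype.ext
    obtain ⟨m, hm⟩ := mem_SS.1 f.2
    obtain ⟨n, hn⟩ := mem_SS.1 g.2
    change tm ((f.1 : ℕ → ℕ) ((g.1 : ℕ → ℕ) 0)) = tm ((f.1 : ℕ → ℕ) 0) ∘ tm ((g.1 : ℕ → ℕ) 0)
    rw [hm, hn, lm_zero, lm_zero, ← tm_op]
    rfl

theorem phi_bij : Function.Bijective phi := by
  constructor
  · intro f g h
    have h1 : tm ((f.1 : ℕ → ℕ) 0) = tm ((g.1 : ℕ → ℕ) 0) := congrArg Subtype.val h
    apply Subtype.ext
    rw [SS_eq f, SS_eq g, tm_inj h1]
  · rintro ⟨g, hg⟩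
    obtain ⟨m, hm⟩ := mem_TT.1 hg
    refine ⟨⟨lm m, ⟨m, rfl⟩⟩, ?_⟩
    apply Subtype.ext
    change tm (lm m 0) = g
    rw [lm_zero, hm]

theorem SS_discrete (V : Set SS) : IsOpen[subTop SS] V := by
  rw [isOpen_sub]
  intro f hf
  refine ⟨{0}, fun g hg => ?_⟩
  have h : (g.1 : ℕ → ℕ) 0 = (f.1 : ℕ → ℕ) 0 := hg 0 (by simp)
  have : g = f := by
    apply Subtype.ext
    rw [SS_eq f, SS_eq g, h]
  rw [this]
  exact hf

theorem SS_closed : ClosedIn SS := by
  rw [closedIn_iff]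
  intro f hf
  refine ⟨(f : ℕ → ℕ) 0, ?_⟩
  funext x
  obtain ⟨g, ⟨k, rfl⟩, hg⟩ := hf {0, x}
  have h0 : lm k 0 = (f : ℕ → ℕ) 0 := hg 0 (by simp)
  have hx : lm k x = (f : ℕ → ℕ) x := hg x (by simp)
  rw [lm_zero] at h0
  rw [← hx, h0]

theorem TT_closed : ClosedIn TT := by
  rw [closedIn_iff]
  intro f hf
  by_cases hid : ∀ x, (f : ℕ → ℕ) x = x
  · refine ⟨0, ?_⟩
    funext x
    rw [show f x = (f : ℕ → ℕ) x from rfl, hid x]
    simp [tm]
  · push Not at hid
    obtain ⟨x0, hx0⟩ := hid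
    refine ⟨(f : ℕ → ℕ) x0 + 1, ?_⟩
    funext x
    obtain ⟨g, ⟨k, rfl⟩, hg⟩ := hf {x0, x}
    have h0 : tm k x0 = (f : ℕ → ℕ) x0 := hg x0 (by simp)
    have hx : tm k x = (f : ℕ → ℕ) x := hg x (by simp)
    rw [show f x = (f : ℕ → ℕ) x from rfl, ← hx]
    have hk : k = (f : ℕ → ℕ) x0 + 1 := by
      simp only [tm] at h0
      split_ifs at h0 <;> omega
    rw [hk]

/-- There is a closed submonoid of `ℕ^ℕ` with automatic continuity but without automatic
homeomorphicity, both with respect to the class of all closed submonoids of `ℕ^ℕ`. -/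
theorem result : ∃ S : Submonoid (Function.End ℕ), ClosedIn S ∧ AutomaticContinuity S ∧
    ¬ AutomaticHomeomorphicity S := by
  refine ⟨SS, SS_closed, ?_, ?_⟩
  · intro T _ φ
    refine @continuous_def SS T (subTop SS) (subTop T) φ |>.2 ?_
    intro V _
    exact SS_discrete _
  · intro h
    have h1 := (h TT TT_closed (MulEquiv.ofBijective phi phi_bij)).2
    have h2 := (@continuous_def TT SS (subTop TT) (subTop SS) _).1 h1 {1} (SS_discrete _)
    rw [isOpen_sub] at h2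
    obtain ⟨F, hF⟩ := h2 1 (by simp)
    let n := F.sup id
    have hn : ∀ x ∈ F, x ≤ n := fun x hx => Finset.le_sup (f := id) hx
    have h3 := hF ⟨tm (n + 1), ⟨_, rfl⟩⟩ (by
      intro x hx
      change tm (n + 1) x = x
      have := hn x hx
      simp only [tm]
      split_ifs <;> omega)
    have h4 : (⟨tm (n + 1), ⟨_, rfl⟩⟩ : TT) = 1 := by
      have h5 : (MulEquiv.ofBijective phi phi_bij).symm ⟨tm (n + 1), ⟨_, rfl⟩⟩ = 1 := h3
      rw [MulEquiv.symm_apply_eq, map_one] at h5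
      exact h5
    have h6 : tm (n + 1) (n + 1) = n + 1 := congrFun (congrArg Subtype.val h4) (n + 1)
    simp only [tm] at h6
    split_ifs at h6 <;> omega

end Pool.Agent.Results.MP_fafee5_lc.DiscreteExample
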