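import Mathlib
import Pool.Agent.Q299.ClosedMonoids
import Pool.Agent.Q299.MinTop

set_option autoImplicit false

namespace Pool.Agent.Results.MP_fafee5_lc.OligomorphicNegative

open Pool.Agent.Q299.ClosedMonoids Pool.Agent.Q299.MinTop Topology

/-- Let `Ω` be countable. Every oligomorphic closed submonoid of `Ω^Ω` with automatic continuity has
automatic homeomorphicity (both with respect to the class of all closed submonoids of `Ω^Ω`). -/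
theorem result (Ω : Type) [Countable Ω] (S : Submonoid (Function.End Ω)) (hS : ClosedIn S)
    (hO : Oligomorphic S) (hAC : AutomaticContinuity S) : AutomaticHomeomorphicity S := by
  classical
  intro T hT φ
  have hφ : @Continuous S T (subTop S) (subTop T) φ := hAC T hT φ.toMulHom
  refine ⟨hφ, ?_⟩
  -- the group of units as permutations
  let G : Subgroup (Equiv.Perm Ω) :=
    { carrier := {g | ∃ h : Sˣ, (∀ x, g x = ((h : S) : Function.End Ω) x) ∧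
        ∀ x, g.symm x = ((h⁻¹ : Sˣ) : S).1 x}
      one_mem' := ⟨1, fun x => rfl, fun x => rfl⟩
      mul_mem' := by
        rintro g g' ⟨h, hh1, hh2⟩ ⟨h', hh1', hh2'⟩
        refine ⟨h * h', fun x => ?_, fun x => ?_⟩
        · change g (g' x) = h.1.1 (h'.1.1 x)
          rw [hh1 (g' x), hh1' x]
        · rw [mul_inv_rev]
          change g'.symm (g.symm x) = (h'⁻¹ : Sˣ).1.1 ((h⁻¹ : Sˣ).1.1 x)
          rw [hh2' (g.symm x), hh2 x]
      inv_mem' := by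
        rintro g ⟨h, hh1, hh2⟩
        refine ⟨h⁻¹, fun x => hh2 x, fun x => ?_⟩
        rw [inv_inv]
        exact hh1 x }
  have hperm : ∀ h : Sˣ, ∃ g ∈ G, ∀ x, g x = h.1.1 x := by
    intro h
    have h1 : ∀ x, (h⁻¹ : Sˣ).1.1 (h.1.1 x) = x := by
      intro x
      have : (h⁻¹ : Sˣ).1 * h.1 = 1 := Units.inv_mul h
      exact congrFun (congrArg Subtype.val this) x
    have h2 : ∀ x, h.1.1 ((h⁻¹ : Sˣ).1.1 x) = x := by
      intro x
      have : h.1 * (h⁻¹ : Sˣ).1 = 1 := Units.mul_inv h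
      exact congrFun (congrArg Subtype.val this) x
    exact ⟨⟨h.1.1, (h⁻¹ : Sˣ).1.1, h1, h2⟩, ⟨h, fun x => rfl, fun x => rfl⟩, fun x => rfl⟩
  have hG : Olig G := by
    intro n
    obtain ⟨R, hR, h⟩ := hO n
    refine ⟨R, hR, fun x => ?_⟩
    obtain ⟨r, hr, g, hg⟩ := h x
    obtain ⟨g', hg', hgg⟩ := hperm g
    exact ⟨r, hr, g', hg', fun i => by rw [hgg, hg]⟩
  have hGS : ∀ g ∈ G, (g : Ω → Ω) ∈ {f : Ω → Ω | (f : Function.End Ω) ∈ S} := by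
    rintro g ⟨h, hh, -⟩
    have : (g : Ω → Ω) = h.1.1 := funext hh
    change (g : Ω → Ω) ∈ (S : Set (Function.End Ω))
    rw [this]
    exact h.1.2
  have hmul : ∀ f ∈ {f : Ω → Ω | (f : Function.End Ω) ∈ S},
      ∀ g ∈ {f : Ω → Ω | (f : Function.End Ω) ∈ S}, f ∘ g ∈ {f : Ω → Ω | (f : Function.End Ω) ∈ S} :=
    fun f hf g hg => S.mul_mem hf hg
  -- the pulled back topology
  let τ : TopologicalSpace {f : Ω → Ω | (f : Function.End Ω) ∈ S} :=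
    TopologicalSpace.induced (fun f => φ (⟨f.1, f.2⟩ : S)) (subTop T)
  have hτ : ∀ V : Set T, IsOpen[subTop T] V →
      IsOpen[τ] {f : {f : Ω → Ω | (f : Function.End Ω) ∈ S} | φ (⟨f.1, f.2⟩ : S) ∈ V} :=
    fun V hV => ⟨V, hV, rfl⟩
  have hT2 : @T2Space _ τ := by
    refine @T2Space.mk _ τ ?_
    intro f g hfg
    have h1 : φ (⟨f.1, f.2⟩ : S) ≠ φ (⟨g.1, g.2⟩ : S) := by
      intro h
      apply hfg
      have := φ.injective h
      exact Subtype.ext (congrArg Subtype.val this)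
    have h2 : ∃ x : Ω, (φ (⟨f.1, f.2⟩ : S)).1 x ≠ (φ (⟨g.1, g.2⟩ : S)).1 x := by
      by_contra hcon
      push Not at hcon
      exact h1 (Subtype.ext (funext hcon))
    obtain ⟨x, hx⟩ := h2
    refine ⟨{h | φ (⟨h.1, h.2⟩ : S) ∈ {t : T | t.1 x = (φ (⟨f.1, f.2⟩ : S)).1 x}},
      {h | φ (⟨h.1, h.2⟩ : S) ∈ {t : T | t.1 x = (φ (⟨g.1, g.2⟩ : S)).1 x}}, hτ _ ?_, hτ _ ?_,
      rfl, rfl, ?_⟩
    · rw [isOpen_sub]
      intro t ht
      exact ⟨{x}, fun t' ht' => (ht' x (by simp)).trans ht⟩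
    · rw [isOpen_sub]
      intro t ht
      exact ⟨{x}, fun t' ht' => (ht' x (by simp)).trans ht⟩
    · rw [Set.disjoint_left]
      intro h h3 h4
      exact hx (h3.symm.trans h4)
  have hle : ∀ V : Set {f : Ω → Ω | (f : Function.End Ω) ∈ S}, IsOpen[τ] V → ∀ f ∈ V,
      ∃ F : Finset Ω, ∀ g : {f : Ω → Ω | (f : Function.End Ω) ∈ S},
        (∀ x ∈ F, g.1 x = f.1 x) → g ∈ V := by
    rintro V ⟨W, hW, rfl⟩ f hf
    have h1 := (@continuous_def S T (subTop S) (subTop T) φ).1 hφ W hW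
    obtain ⟨F, hF⟩ := (isOpen_sub _).1 h1 (⟨f.1, f.2⟩ : S) hf
    exact ⟨F, fun g hg => hF (⟨g.1, g.2⟩ : S) hg⟩
  have hcont : ∀ (f g : {f : Ω → Ω | (f : Function.End Ω) ∈ S})
      (V : Set {f : Ω → Ω | (f : Function.End Ω) ∈ S}), IsOpen[τ] V →
      (⟨f.1 ∘ g.1, hmul _ f.2 _ g.2⟩ : {f : Ω → Ω | (f : Function.End Ω) ∈ S}) ∈ V →
      ∃ A B : Set {f : Ω → Ω | (f : Function.End Ω) ∈ S}, IsOpen[τ] A ∧ IsOpen[τ] B ∧ f ∈ A ∧
        g ∈ B ∧ ∀ f' ∈ A, ∀ g' ∈ B,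
        (⟨f'.1 ∘ g'.1, hmul _ f'.2 _ g'.2⟩ : {f : Ω → Ω | (f : Function.End Ω) ∈ S}) ∈ V := by
    rintro f g V ⟨W, hW, rfl⟩ hfg
    have hmap : ∀ f' g' : {f : Ω → Ω | (f : Function.End Ω) ∈ S},
        φ (⟨f'.1 ∘ g'.1, hmul _ f'.2 _ g'.2⟩ : S) =
          φ (⟨f'.1, f'.2⟩ : S) * φ (⟨g'.1, g'.2⟩ : S) := fun f' g' => by
      rw [← map_mul]
      rfl
    have h1 : φ (⟨f.1 ∘ g.1, hmul _ f.2 _ g.2⟩ : S) ∈ W := hfg
    rw [hmap] at h1
    obtain ⟨F, hF⟩ := (isOpen_sub _).1 hW _ h1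
    refine ⟨{h | φ (⟨h.1, h.2⟩ : S) ∈ {t : T | ∀ x ∈ F,
        t.1 ((φ (⟨g.1, g.2⟩ : S)).1 x) = (φ (⟨f.1, f.2⟩ : S)).1 ((φ (⟨g.1, g.2⟩ : S)).1 x)}},
      {h | φ (⟨h.1, h.2⟩ : S) ∈ {t : T | ∀ x ∈ F, t.1 x = (φ (⟨g.1, g.2⟩ : S)).1 x}},
      hτ _ ?_, hτ _ ?_, fun x _ => rfl, fun x _ => rfl, ?_⟩
    · rw [isOpen_sub]
      intro t ht
      refine ⟨F.image (fun x => (φ (⟨g.1, g.2⟩ : S)).1 x), fun t' ht' x hx => ?_⟩
      rw [ht' _ (Finset.mem_image_of_mem _ hx)]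
      exact ht x hx
    · rw [isOpen_sub]
      intro t ht
      refine ⟨F, fun t' ht' x hx => ?_⟩
      rw [ht' _ hx]
      exact ht x hx
    · intro f' hf' g' hg'
      change φ (⟨f'.1 ∘ g'.1, hmul _ f'.2 _ g'.2⟩ : S) ∈ W
      rw [hmap]
      apply hF
      intro x hx
      change (φ (⟨f'.1, f'.2⟩ : S)).1 ((φ (⟨g'.1, g'.2⟩ : S)).1 x) =
        (φ (⟨f.1, f.2⟩ : S)).1 ((φ (⟨g.1, g.2⟩ : S)).1 x)
      have h2 : (φ (⟨g'.1, g'.2⟩ : S)).1 x = (φ (⟨g.1, g.2⟩ : S)).1 x := hg' x hx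
      rw [h2]
      exact hf' x hx
  have key := core hG {f : Ω → Ω | (f : Function.End Ω) ∈ S} (closedIn_iff.1 hS) hGS hmul τ hT2 hle
    hcont
  -- conclusion
  refine (@continuous_def T S (subTop T) (subTop S) φ.symm).2 ?_
  intro V hV
  refine (@isOpen_iff_forall_mem_open T (subTop T) _).2 ?_
  intro t ht
  obtain ⟨F, hF⟩ := (isOpen_sub _).1 hV (φ.symm t) ht
  choose W hW1 hW2 using fun a b => key a b
  refine ⟨⋂ x ∈ F, W x ((φ.symm t).1 x), ?_, ?_, ?_⟩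
  · intro t' ht'
    change φ.symm t' ∈ V
    apply hF
    intro x hx
    have h1 := Set.mem_iInter₂.1 ht' x hx
    have h2 : (⟨(φ.symm t').1, (φ.symm t').2⟩ : {f : Ω → Ω | (f : Function.End Ω) ∈ S}) ∈
        (fun f : {f : Ω → Ω | (f : Function.End Ω) ∈ S} => φ (⟨f.1, f.2⟩ : S)) ⁻¹'
          W x ((φ.symm t).1 x) := by
      change φ (⟨(φ.symm t').1, (φ.symm t').2⟩ : S) ∈ W x ((φ.symm t).1 x)
      have h4 : φ (⟨(φ.symm t').1, (φ.symm t').2⟩ : S) = t' := φ.apply_symm_apply t'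
      rw [h4]
      exact h1
    rw [hW2 x ((φ.symm t).1 x)] at h2
    exact h2
  · let _ : TopologicalSpace T := subTop T
    apply isOpen_biInter_finset
    intro x _
    exact hW1 _ _
  · rw [Set.mem_iInter₂]
    intro x _
    have h2 : (⟨(φ.symm t).1, (φ.symm t).2⟩ : {f : Ω → Ω | (f : Function.End Ω) ∈ S}) ∈
        (fun f : {f : Ω → Ω | (f : Function.End Ω) ∈ S} => φ (⟨f.1, f.2⟩ : S)) ⁻¹'
          W x ((φ.symm t).1 x) := by
      rw [hW2 x ((φ.symm t).1 x)]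
      rfl
    have h3 : φ (⟨(φ.symm t).1, (φ.symm t).2⟩ : S) ∈ W x ((φ.symm t).1 x) := h2
    have h4 : φ (⟨(φ.symm t).1, (φ.symm t).2⟩ : S) = t := φ.apply_symm_apply t
    rw [h4] at h3
    exact h3

end Pool.Agent.Results.MP_fafee5_lc.OligomorphicNegative
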